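import Pool.Agent.Helper37.HM.LemmaA

/-!
# The dichotomy is preserved by one Hechler step
-/

set_option autoImplicit false

namespace Pool.Agent.Helper33.HM

universe u

section LB

variable {B : Type u} [CompleteBooleanAlgebra B] {S T U : Set B}

/-- the name which is `r` on the first `r.length` values and `g` afterwards -/
private def h7b_cat (r : List ℕ) (g : ℕ → ℕ → B) : ℕ → ℕ → B :=
  fun i => if h : i < r.length then natN r[i] else g i

private theorem h7b_cat_lt {r : List ℕ} {g : ℕ → ℕ → B} {i : ℕ} (h : i < r.length) :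
    h7b_cat r g i = natN r[i] := by
  simp only [h7b_cat, dif_pos h]

private theorem h7b_cat_ge {r : List ℕ} {g : ℕ → ℕ → B} {i : ℕ} (h : ¬ i < r.length) :
    h7b_cat r g i = g i := by
  simp only [h7b_cat, dif_neg h]

private theorem h7b_isFn_cat (hT : IsSub T) (r : List ℕ) {g : ℕ → ℕ → B} (hg : IsFn T g) :
    IsFn T (h7b_cat r g) where
  mem n k := by
    by_cases h : n < r.length
    · rw [h7b_cat_lt h]
      exact hT.ite_mem hT.top_mem hT.bot_mem
    · rw [h7b_cat_ge h]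
      exact hg.mem n k
  mono n k := by
    by_cases h : n < r.length
    · rw [h7b_cat_lt h]
      simp only [natN]
      split_ifs with h1 h2
      · exact le_rfl
      · omega
      · exact bot_le
      · exact le_rfl
    · rw [h7b_cat_ge h]
      exact hg.mono n k
  tot n := by
    by_cases h : n < r.length
    · rw [h7b_cat_lt h]
      refine eq_top_iff.2 (le_trans ?_ (le_iSup _ r[n]))
      simp [natN]
    · rw [h7b_cat_ge h]
      exact hg.tot n

private theorem h7b_extF_cat (r : List ℕ) (g : ℕ → ℕ → B) : ExtF r (h7b_cat r g) :=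
  fun _ h => h7b_cat_lt h

private theorem h7b_le_leF {f g : ℕ → ℕ → B} {x : B} (h : ∀ n k, x ⊓ g n k ≤ f n k) :
    x ≤ leF f g :=
  le_iInf fun n => le_iInf fun k => le_himp_iff.2 (h n k)

private theorem h7b_leF_inf {f g : ℕ → ℕ → B} (n k : ℕ) : leF f g ⊓ g n k ≤ f n k :=
  le_himp_iff.1 ((iInf_le _ n).trans (iInf_le _ k))

private theorem h7b_le_subV {C Z : List Bool → B} {x : B} (h : ∀ σ, x ⊓ C σ ≤ Z σ) :
    x ≤ subV C Z :=
  le_iInf fun σ => le_himp_iff.2 (h σ)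

private theorem h7b_subV_inf {C Z : List Bool → B} (σ : List Bool) : subV C Z ⊓ C σ ≤ Z σ :=
  le_himp_iff.1 (iInf_le _ σ)

private theorem h7b_hcond_mono (d : ℕ → ℕ → B) (s : List ℕ) (f g : ℕ → ℕ → B) :
    leF f g ⊓ hcond d s g ≤ hcond d s f := by
  refine le_inf (inf_le_right.trans inf_le_left) ?_
  refine le_iInf fun n => le_iInf fun hn => le_iInf fun k => le_himp_iff.2 ?_
  have h1 : hcond d s g ⊓ d n k ≤ g n k :=
    le_himp_iff.1 (inf_le_right.trans ((iInf_le _ n).trans ((iInf_le _ hn).trans (iInf_le _ k))))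
  calc leF f g ⊓ hcond d s g ⊓ d n k = leF f g ⊓ (hcond d s g ⊓ d n k) := inf_assoc _ _ _
    _ ≤ leF f g ⊓ g n k := inf_le_inf_left _ h1
    _ ≤ f n k := h7b_leF_inf n k

private theorem h7b_hcond_mem (hU : IsSub U) {d : ℕ → ℕ → B} (hd : IsFn U d) (s : List ℕ)
    {g : ℕ → ℕ → B} (hg : ∀ n k, g n k ∈ U) : hcond d s g ∈ U := by
  refine hU.inf_mem ?_ ?_
  · refine hU.iInf_mem fun i => hU.iInf_mem fun hi => hU.inf_mem (hd.mem _ _) ?_
    exact hU.iInf_mem fun j => hU.iInf_mem fun _ => hU.compl_mem _ (hd.mem _ _)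
  · exact hU.iInf_mem fun n => hU.iInf_mem fun _ => hU.iInf_mem fun k =>
      hU.himp_mem (hd.mem _ _) (hg _ _)

/-- the closed set of all possible values of `C`, given `hcond d s g` -/
private def h7b_Cs (T : Set B) (d : ℕ → ℕ → B) (C : List Bool → B) (s : List ℕ)
    (g : ℕ → ℕ → B) (σ : List Bool) : B :=
  proj T (hcond d s g ⊓ C σ)

private theorem h7b_Cs_mem (hT : IsSub T) (d : ℕ → ℕ → B) (C : List Bool → B) (s : List ℕ)
    (g : ℕ → ℕ → B) (σ : List Bool) : h7b_Cs T d C s g σ ∈ T := hT.proj_mem _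

private theorem h7b_Cs_pr (hT : IsSub T) (d : ℕ → ℕ → B) {C : List Bool → B} (hC : IsPr C)
    (s : List ℕ) (g : ℕ → ℕ → B) : IsPr (h7b_Cs T d C s g) := by
  intro σ
  simp only [h7b_Cs]
  rw [← hT.proj_sup, ← inf_sup_left, ← hC σ]

private theorem h7b_Cs_mono (hT : IsSub T) (d : ℕ → ℕ → B) (C : List Bool → B) (s : List ℕ)
    {f g : ℕ → ℕ → B} {x : B} (hx : x ∈ T) (hfg : x ≤ leF f g)
    (σ : List Bool) : x ⊓ h7b_Cs T d C s g σ ≤ h7b_Cs T d C s f σ := by
  simp only [h7b_Cs]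
  rw [← hT.proj_inf hx]
  refine proj_mono T ?_
  rw [← inf_assoc]
  exact inf_le_inf_right _ ((inf_le_inf_right _ hfg).trans (h7b_hcond_mono d s f g))

private theorem h7b_infC_mem (hT : IsSub T) {C : (ℕ → ℕ → B) → List Bool → B}
    (hC : ∀ f, IsFn T f → ∀ σ, C f σ ∈ T) (r : List ℕ) (σ : List Bool) : infC T C r σ ∈ T :=
  hT.iInf_mem fun f => hT.iInf_mem fun hf => hC f hf.1 σ

private theorem h7b_infC_le {C : (ℕ → ℕ → B) → List Bool → B} {r : List ℕ} {f : ℕ → ℕ → B}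
    (hf : IsFn T f) (hr : ExtF r f) (σ : List Bool) : infC T C r σ ≤ C f σ :=
  (iInf_le _ f).trans (iInf_le _ ⟨hf, hr⟩)

private theorem h7b_extF_maxF {r : List ℕ} {f g : ℕ → ℕ → B} (hf : ExtF r f) (hg : ExtF r g) :
    ExtF r (maxF f g) := by
  intro i hi
  funext k
  simp only [maxF, hf i hi, hg i hi, inf_idem]

private theorem h7b_infC_pr (hT : IsSub T) {C : (ℕ → ℕ → B) → List Bool → B}
    (hpr : ∀ f, IsFn T f → IsPr (C f))
    (hmono : ∀ f g, IsFn T f → IsFn T g → ∀ σ, leF f g ⊓ C g σ ≤ C f σ) (r : List ℕ) :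
    IsPr (infC T C r) := by
  intro σ
  apply le_antisymm
  · have key : ∀ τ, infC T C r τ = ⨅ x : {f // IsFn T f ∧ ExtF r f}, C x.1 τ :=
      fun τ => iInf_subtype'
    rw [key (σ ++ [false]), key (σ ++ [true]), iInf_sup_iInf]
    refine le_iInf fun q => ?_
    obtain ⟨⟨p1, hf⟩, ⟨p2, hg⟩⟩ := q
    show infC T C r σ ≤ C p1 (σ ++ [false]) ⊔ C p2 (σ ++ [true])
    have hm : IsFn T (maxF p1 p2) := isFn_maxF hT hf.1 hg.1
    refine (h7b_infC_le hm (h7b_extF_maxF hf.2 hg.2) σ).trans ?_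
    rw [hpr _ hm σ]
    refine sup_le_sup ?_ ?_
    · have h1 := hmono p1 (maxF p1 p2) hf.1 hm (σ ++ [false])
      have h2 : leF p1 (maxF p1 p2) = ⊤ :=
        eq_top_iff.2 (h7b_le_leF fun n k => inf_le_right.trans inf_le_left)
      rwa [h2, top_inf_eq] at h1
    · have h1 := hmono p2 (maxF p1 p2) hg.1 hm (σ ++ [true])
      have h2 : leF p2 (maxF p1 p2) = ⊤ :=
        eq_top_iff.2 (h7b_le_leF fun n k => inf_le_right.trans inf_le_right)
      rwa [h2, top_inf_eq] at h1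
  · refine sup_le ?_ ?_
    · refine le_iInf fun f => le_iInf fun hf => (h7b_infC_le hf.1 hf.2 _).trans ?_
      rw [hpr f hf.1 σ]
      exact le_sup_left
    · refine le_iInf fun f => le_iInf fun hf => (h7b_infC_le hf.1 hf.2 _).trans ?_
      rw [hpr f hf.1 σ]
      exact le_sup_right

/-- shrink `x` so that the first `n` values of `g` are decided -/
private theorem h7b_decide (hT : IsSub T) {g : ℕ → ℕ → B} (hg : IsFn T g) (n : ℕ) {x : B}
    (hx : x ∈ T) (hx0 : x ≠ ⊥) : ∃ y ∈ T, y ≠ ⊥ ∧ y ≤ x ∧ ∃ q : ℕ → ℕ, ∀ i < n,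
      y ≤ eqN (g i) (q i) := by
  induction n with
  | zero => exact ⟨x, hx, hx0, le_rfl, fun _ => 0, fun i hi => absurd hi (Nat.not_lt_zero _)⟩
  | succ n ih =>
    obtain ⟨y, hy, hy0, hyx, q, hq⟩ := ih
    have h1 : y ≤ ⨆ m, eqN (g n) m := by
      rw [iSup_eqN (hg.tot n)]
      exact le_top
    obtain ⟨m, hm⟩ := exists_inf_ne_bot hy0 h1
    refine ⟨y ⊓ eqN (g n) m, hT.inf_mem hy (eqN_mem hT (hg.mem n) m), hm,
      inf_le_left.trans hyx, Function.update q n m, ?_⟩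
    intro i hi
    by_cases h : i = n
    · subst h
      rw [Function.update_self]
      exact inf_le_right
    · rw [Function.update_of_ne h]
      exact inf_le_left.trans (hq i (by omega))

/-- the list of the pointwise maxima -/
private def h7b_mx (r : List ℕ) (q : ℕ → ℕ) : List ℕ :=
  List.ofFn fun i : Fin r.length => max r[i] (q i)

private theorem h7b_mx_len (r : List ℕ) (q : ℕ → ℕ) : (h7b_mx r q).length = r.length := by
  simp [h7b_mx]

private theorem h7b_mx_get (r : List ℕ) (q : ℕ → ℕ) (i : ℕ) (h : i < (h7b_mx r q).length)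
    (h' : i < r.length) : (h7b_mx r q)[i] = max r[i] (q i) := by
  simp [h7b_mx]

private theorem h7b_eqN_inf {g : ℕ → ℕ → B} (hg : IsFn T g) {n m : ℕ} {y : B}
    (hy : y ≤ eqN (g n) m) (k : ℕ) : (m ≤ k → y ≤ g n k) ∧ (¬ m ≤ k → y ⊓ g n k ≤ ⊥) := by
  have h := eqN_inf (hg.mono n) m k
  constructor
  · intro hk
    rw [if_pos hk] at h
    exact hy.trans (inf_eq_left.1 h)
  · intro hk
    rw [if_neg hk] at h
    rw [← h]
    exact inf_le_inf_right _ hy

theorem lemmaB (hc : CCC B) (hS : IsSub S) (hT : IsSub T) (hU : IsSub U) (hST : S ⊆ T)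
    (hTU : T ⊆ U) {d : ℕ → ℕ → B} (hd : IsFn U d)
    (hpos : ∀ s g, IsFn T g → ∀ b ∈ T, b ≠ ⊥ → b ⊓ hcond d s g ≠ ⊥)
    (hdense : ∀ b ∈ U, b ≠ ⊥ → ∃ c ∈ T, c ≠ ⊥ ∧ ∃ s g, IsFn T g ∧ c ⊓ hcond d s g ≤ b)
    (h : Good S T) : Good S U := by
  classical
  intro C hC hCpr b hb hb0
  -- the system of closed sets
  set Cs : List ℕ → (ℕ → ℕ → B) → List Bool → B := fun s g => h7b_Cs T d C s g with hCs
  have hCsmem : ∀ s g σ, Cs s g σ ∈ T := fun s g σ => h7b_Cs_mem hT d C s g σ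
  have hCspr : ∀ s g, IsPr (Cs s g) := fun s g => h7b_Cs_pr hT d hCpr s g
  have hleFmem : ∀ f g, IsFn T f → IsFn T g → leF f g ∈ T := fun f g hf hg => leF_mem hT hf hg
  have hCsmono : ∀ s f g, ∀ x ∈ T, x ≤ leF f g → ∀ σ,
      x ⊓ Cs s g σ ≤ Cs s f σ := fun s f g x hx hfg σ =>
    h7b_Cs_mono hT d C s hx hfg σ
  set CI : List ℕ → List ℕ → List Bool → B := fun s r => infC T (Cs s) r with hCI
  have hCImem : ∀ s r σ, CI s r σ ∈ T := fun s r σ =>
    h7b_infC_mem hT (fun f _ σ => hCsmem s f σ) r σ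
  have hCIpr : ∀ s r, IsPr (CI s r) := fun s r =>
    h7b_infC_pr hT (fun f _ => hCspr s f)
      (fun f g hf hg σ => hCsmono s f g _ (hleFmem f g hf hg) le_rfl σ) r
  -- the pieces
  have hpieces : ∀ s r : List ℕ, ∃ a : ℕ → B, (∀ n, a n ∈ T) ∧
      (∀ n, Type1 S (CI s r) (a n) ∨ Type2 S (CI s r) (a n)) ∧ ⨆ n, a n = ⊤ := by
    intro s r
    obtain ⟨a, ha1, ha2, -, -, ha3⟩ := exists_partition hc hT
      (fun c => Type1 S (CI s r) c ∨ Type2 S (CI s r) c)
      (fun x hx hx0 => h (CI s r) (hCImem s r) (hCIpr s r) x hx hx0)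
      (Or.inl ⟨fun _ => ⊥, fun _ => hS.bot_mem, fun σ => by simp, nullV_bot, bot_le⟩)
      (e := ⊤) hT.top_mem
    exact ⟨a, ha1, ha2, ha3⟩
  choose a haT hatype hasup using hpieces
  -- the sequences of the pieces of the second type
  have hseq : ∀ s r : List ℕ, ∀ n : ℕ, ∃ K : ℕ → List Bool → B, (∀ m σ, K m σ ∈ S) ∧
      (∀ m, IsPr (K m)) ∧ (∀ m, nullV (K m) = ⊥) ∧
      (Type1 S (CI s r) (a s r n) ∨ ∀ F : List Bool → B, (∀ σ, F σ ∈ S) → IsPr F →
        a s r n ⊓ subV (CI s r) F ≤ ⨆ m, subV (K m) F) := by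
    intro s r n
    rcases hatype s r n with h1 | ⟨K, hK1, hK2, hK3, hK4⟩
    · exact ⟨fun _ _ => ⊤, fun _ _ => hS.top_mem, fun _ σ => by simp, fun _ => nullV_top,
        Or.inl h1⟩
    · exact ⟨K, hK1, hK2, hK3, Or.inr hK4⟩
  choose K hKS hKpr hKnull hKtype using hseq
  obtain ⟨e, he⟩ := exists_surjective_nat (List ℕ × List ℕ × ℕ × ℕ)
  set Kst : ℕ → List Bool → B := fun n => K (e n).1 (e n).2.1 (e n).2.2.1 (e n).2.2.2 with hKst
  by_cases hall : ∀ F : List Bool → B, (∀ σ, F σ ∈ S) → IsPr F →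
      b ⊓ subV C F ≤ ⨆ n, subV (Kst n) F
  · exact ⟨b, hb, hb0, le_rfl, Or.inr ⟨Kst, fun n σ => hKS _ _ _ _ _, fun n => hKpr _ _ _ _,
      fun n => hKnull _ _ _ _, hall⟩⟩
  push Not at hall
  obtain ⟨F, hFS, hFpr, hF⟩ := hall
  -- the element `k`
  set k : B := (⨆ n, subV (Kst n) F)ᶜ with hk
  have hkS : k ∈ S := hS.compl_mem _ (hS.iSup_mem fun n =>
    hS.iInf_mem fun σ => hS.himp_mem (hKS _ _ _ _ _) (hFS σ))
  have hsubU : subV C F ∈ U := hU.iInf_mem fun σ => hU.himp_mem (hC σ) (hTU (hST (hFS σ)))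
  have hc0 : b ⊓ subV C F ⊓ k ≠ ⊥ := by
    intro h0
    apply hF
    rwa [← disjoint_iff, hk, disjoint_compl_right_iff] at h0
  obtain ⟨b1, hb1, hb10, s, g0, hg0, hb1le⟩ := hdense _
    (hU.inf_mem (hU.inf_mem hb hsubU) (hTU (hST hkS))) hc0
  have hb1k : b1 ≤ k := by
    by_contra hcon
    have h1 : b1 ⊓ kᶜ ≠ ⊥ := fun h2 => hcon (by
      rwa [← disjoint_iff, disjoint_compl_right_iff] at h2)
    refine hpos s g0 hg0 _ (hT.inf_mem hb1 (hT.compl_mem _ (hST hkS))) h1 ?_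
    rw [eq_bot_iff]
    calc b1 ⊓ kᶜ ⊓ hcond d s g0 ≤ (b1 ⊓ hcond d s g0) ⊓ kᶜ := by
          rw [inf_assoc, inf_assoc, inf_comm kᶜ]
      _ ≤ k ⊓ kᶜ := inf_le_inf_right _ (hb1le.trans inf_le_right)
      _ ≤ ⊥ := by rw [inf_compl_eq_bot]
  have hb1F : ∀ σ, b1 ⊓ Cs s g0 σ ≤ F σ := by
    intro σ
    simp only [hCs, h7b_Cs]
    rw [← hT.proj_inf hb1]
    refine hT.proj_le (hST (hFS σ)) ?_
    rw [← inf_assoc]
    calc b1 ⊓ hcond d s g0 ⊓ C σ ≤ subV C F ⊓ C σ :=
          inf_le_inf_right _ (hb1le.trans (inf_le_left.trans inf_le_right))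
      _ ≤ F σ := h7b_subV_inf σ
  -- the system to which Lemma A is applied
  set C' : (ℕ → ℕ → B) → List Bool → B := fun f σ => b1 ⊓ Cs s (maxF g0 f) σ with hC'
  have hC'1 : ∀ f, IsFn T f → (∀ σ, C' f σ ∈ T) ∧ IsPr (C' f) := by
    intro f hf
    refine ⟨fun σ => hT.inf_mem hb1 (hCsmem _ _ _), fun σ => ?_⟩
    simp only [hC']
    rw [← inf_sup_left, ← hCspr s (maxF g0 f) σ]
  have hC'2 : ∀ f g, IsFn T f → IsFn T g → ∀ σ, leF f g ⊓ C' g σ ≤ C' f σ := by
    intro f g hf hg σ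
    have h1 : leF f g ≤ leF (maxF g0 f) (maxF g0 g) := by
      refine h7b_le_leF fun n k => ?_
      simp only [maxF]
      refine le_inf (inf_le_right.trans inf_le_left) ?_
      exact (inf_le_inf_left _ inf_le_right).trans (h7b_leF_inf n k)
    have h2 := hCsmono s (maxF g0 f) (maxF g0 g) (leF f g) (hleFmem f g hf hg) h1 σ
    simp only [hC']
    refine le_inf (inf_le_right.trans inf_le_left) ?_
    exact (inf_le_inf_left _ inf_le_right).trans h2
  have hloc : ∀ r : List ℕ, ∀ x ∈ T, x ≠ ⊥ → ∃ c ∈ T, c ≠ ⊥ ∧ c ≤ x ∧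
      Type1 S (infC T C' r) c := by
    intro r x hx hx0
    by_cases hxb : x ⊓ b1ᶜ = ⊥
    · have hxb1 : x ≤ b1 := by
        rwa [← disjoint_iff, disjoint_compl_right_iff] at hxb
      obtain ⟨y, hy, hy0, hyx, q, hq⟩ := h7b_decide hT hg0 r.length hx hx0
      set q' : List ℕ := h7b_mx r q with hq'
      -- on `y`, `infC T C' r ≤ CI s q'`
      have hle1 : ∀ σ, y ⊓ infC T C' r σ ≤ CI s q' σ := by
        intro σ
        refine le_iInf fun g => le_iInf fun hg => ?_
        have hfn : IsFn T (h7b_cat r g) := h7b_isFn_cat hT r hg.1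
        have h1 : infC T C' r σ ≤ C' (h7b_cat r g) σ :=
          h7b_infC_le hfn (h7b_extF_cat r g) σ
        have h2 : y ≤ leF g (maxF g0 (h7b_cat r g)) := by
          refine h7b_le_leF fun n m => ?_
          by_cases hn : n < r.length
          · have hn' : n < q'.length := by rw [hq', h7b_mx_len]; exact hn
            rw [hg.2 n hn', h7b_mx_get r q n hn' hn]
            simp only [maxF, h7b_cat_lt hn, natN]
            have h3 := h7b_eqN_inf hg0 (hq n hn) m
            by_cases hm1 : r[n] ≤ m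
            · by_cases hm2 : q n ≤ m
              · rw [if_pos (max_le hm1 hm2)]
                exact le_top
              · rw [if_pos hm1, inf_top_eq]
                exact (h3.2 hm2).trans bot_le
            · rw [if_neg hm1, inf_bot_eq, inf_bot_eq]
              exact bot_le
          · simp only [maxF, h7b_cat_ge hn]
            exact inf_le_right.trans inf_le_right
        have h3 := hCsmono s g (maxF g0 (h7b_cat r g)) y hy h2 σ
        exact (inf_le_inf_left _ (h1.trans inf_le_right)).trans h3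
      -- on `y`, `CI s q' ≤ F`
      have hle2 : ∀ σ, y ⊓ CI s q' σ ≤ F σ := by
        intro σ
        have hfn : IsFn T (h7b_cat q' g0) := h7b_isFn_cat hT q' hg0
        have h1 : CI s q' σ ≤ Cs s (h7b_cat q' g0) σ :=
          h7b_infC_le hfn (h7b_extF_cat q' g0) σ
        have h2 : y ≤ leF g0 (h7b_cat q' g0) := by
          refine h7b_le_leF fun n m => ?_
          by_cases hn' : n < q'.length
          · have hn : n < r.length := by rw [hq', h7b_mx_len] at hn'; exact hn'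
            rw [h7b_cat_lt hn', h7b_mx_get r q n hn' hn]
            simp only [natN]
            have h3 := h7b_eqN_inf hg0 (hq n hn) m
            by_cases hm2 : q n ≤ m
            · exact inf_le_left.trans (h3.1 hm2)
            · rw [if_neg (fun h4 => hm2 ((le_max_right _ _).trans h4)), inf_bot_eq]
              exact bot_le
          · rw [h7b_cat_ge hn']
            exact inf_le_right
        have h3 := hCsmono s g0 (h7b_cat q' g0) y hy h2 σ
        calc y ⊓ CI s q' σ ≤ b1 ⊓ Cs s g0 σ :=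
              le_inf (inf_le_left.trans (hyx.trans hxb1)) ((inf_le_inf_left _ h1).trans h3)
          _ ≤ F σ := hb1F σ
      obtain ⟨n, hn⟩ := exists_inf_ne_bot hy0 (f := a s q') (by rw [hasup]; exact le_top)
      refine ⟨y ⊓ a s q' n, hT.inf_mem hy (haT _ _ _), hn, inf_le_left.trans hyx, ?_⟩
      rcases hKtype s q' n with ⟨Z, hZ1, hZ2, hZ3, hZ4⟩ | h2
      · refine ⟨Z, hZ1, hZ2, hZ3, h7b_le_subV fun σ => ?_⟩
        calc y ⊓ a s q' n ⊓ infC T C' r σ = a s q' n ⊓ (y ⊓ infC T C' r σ) := by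
              rw [inf_comm y, inf_assoc]
          _ ≤ subV (CI s q') Z ⊓ CI s q' σ := inf_le_inf hZ4 (hle1 σ)
          _ ≤ Z σ := h7b_subV_inf σ
      · exfalso
        apply hn
        rw [eq_bot_iff]
        have h3 : y ⊓ a s q' n ≤ ⨆ m, subV (K s q' n m) F :=
          (le_inf inf_le_right (inf_le_left.trans (h7b_le_subV hle2))).trans (h2 F hFS hFpr)
        have h4 : (⨆ m, subV (K s q' n m) F) ≤ ⨆ n, subV (Kst n) F := by
          refine iSup_le fun m => ?_
          obtain ⟨j, hj⟩ := he (s, q', n, m)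
          refine le_trans (le_of_eq ?_) (le_iSup _ j)
          simp only [hKst, hj]
        calc y ⊓ a s q' n ≤ k ⊓ (⨆ n, subV (Kst n) F) :=
              le_inf (inf_le_left.trans (hyx.trans (hxb1.trans hb1k))) (h3.trans h4)
          _ ≤ ⊥ := by rw [hk, compl_inf_eq_bot]
    · refine ⟨x ⊓ b1ᶜ, hT.inf_mem hx (hT.compl_mem _ hb1), hxb, inf_le_left, fun _ => ⊥,
        fun _ => hS.bot_mem, fun σ => by simp, nullV_bot, h7b_le_subV fun σ => ?_⟩
      have h1 : infC T C' r σ ≤ C' (h7b_cat r g0) σ :=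
        h7b_infC_le (h7b_isFn_cat hT r hg0) (h7b_extF_cat r g0) σ
      calc x ⊓ b1ᶜ ⊓ infC T C' r σ ≤ b1ᶜ ⊓ b1 :=
            inf_le_inf inf_le_right (h1.trans inf_le_left)
        _ ≤ ⊥ := by rw [compl_inf_eq_bot]
  obtain ⟨c, hcT, hcne, hcb1, f, hf, Z, hZ1, hZ2, hZ3, hZ4⟩ :=
    lemmaA hc hS hT hST C' hC'1 hC'2 hloc hb1 hb10
  have hm : IsFn T (maxF g0 f) := isFn_maxF hT hg0 hf
  refine ⟨c ⊓ hcond d s (maxF g0 f), hU.inf_mem (hTU hcT)
    (h7b_hcond_mem hU hd s fun n k => hTU (hm.mem n k)), hpos s _ hm c hcT hcne, ?_,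
    Or.inl ⟨Z, hZ1, hZ2, hZ3, h7b_le_subV fun σ => ?_⟩⟩
  · have h1 : hcond d s (maxF g0 f) ≤ hcond d s g0 := by
      have h2 := h7b_hcond_mono d s g0 (maxF g0 f)
      have h3 : leF g0 (maxF g0 f) = ⊤ :=
        eq_top_iff.2 (h7b_le_leF fun n k => inf_le_right.trans inf_le_left)
      rwa [h3, top_inf_eq] at h2
    calc c ⊓ hcond d s (maxF g0 f) ≤ b1 ⊓ hcond d s g0 := inf_le_inf hcb1 h1
      _ ≤ b := hb1le.trans (inf_le_left.trans inf_le_left)
  · calc c ⊓ hcond d s (maxF g0 f) ⊓ C σ ≤ subV (C' f) Z ⊓ C' f σ := by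
          refine le_inf (inf_le_left.trans (inf_le_left.trans hZ4)) ?_
          simp only [hC']
          refine le_inf (inf_le_left.trans (inf_le_left.trans hcb1)) ?_
          rw [inf_assoc]
          exact inf_le_right.trans (le_proj T _)
      _ ≤ Z σ := h7b_subV_inf σ

end LB

end Pool.Agent.Helper33.HM

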